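import Pool.Agent.Helper6.CS.Goals0

/-!
# Project CS, ALGC: a model of ACA_0 is given by a world
-/

set_option autoImplicit false

namespace Pool.Agent.Helper43.CS

open Pool.Agent.Helper6.CS

/-- Translation of terms. -/
def tr : Tm → Term
  | .var i => .var i
  | .zero => .zero
  | .one => .one
  | .add s t => .add (tr s) (tr t)
  | .mul s t => .mul (tr s) (tr t)

theorem t_ALGC : Pool.Agent.Helper6.CS.G_ALGC := by
  intro hALGA hALGB A hA
  obtain ⟨addassoc, addcomm, addcancel, mulassoc, mulcomm, mulone, muladd⟩ := hALGA A hA
  obtain ⟨irrefl, ltrans, tri, ltiff⟩ := hALGB A hA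
  have zeroadd : ∀ a, A.add A.zero a = a := fun a => by rw [addcomm, hA.add_zero]
  have zeromul : ∀ a, A.mul A.zero a = A.zero := fun a => by rw [mulcomm, hA.mul_zero]
  have onemul : ∀ a, A.mul A.one a = a := fun a => by rw [mulcomm, mulone]
  have addmul : ∀ a b c, A.mul (A.add a b) c = A.add (A.mul a c) (A.mul b c) := fun a b c => by
    rw [mulcomm, muladd, mulcomm c a, mulcomm c b]
  have leiff : ∀ a b, (A.lt a b ∨ a = b) ↔ ∃ c, b = A.add a c := by
    intro a b
    constructor
    · rintro (h | h)
      · obtain ⟨c, hc⟩ := (ltiff a b).1 h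
        exact ⟨_, hc⟩
      · exact ⟨A.zero, by rw [hA.add_zero, h]⟩
    · rintro ⟨c, hc⟩
      rcases tri A.zero c with h | h | h
      · obtain ⟨d, hd⟩ := (ltiff _ _).1 h
        rw [zeroadd] at hd
        rw [hd] at hc
        exact Or.inl ((ltiff _ _).2 ⟨d, hc⟩)
      · rw [← h, hA.add_zero] at hc
        exact Or.inr hc.symm
      · exact absurd h (hA.not_lt_zero c)
  have onene : A.zero ≠ A.one := by
    intro h
    have := hA.succ_ne_zero A.zero
    rw [zeroadd] at this
    exact this h.symm
  letI cs : CommSemiring A.M :=
    { add := A.add, zero := A.zero, one := A.one, mul := A.mul,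
      add_assoc := addassoc, zero_add := zeroadd, add_zero := hA.add_zero, add_comm := addcomm,
      left_distrib := muladd, right_distrib := addmul, zero_mul := zeromul,
      mul_zero := hA.mul_zero, mul_assoc := mulassoc, one_mul := onemul, mul_one := mulone,
      mul_comm := mulcomm, nsmul := @nsmulRec A.M ⟨A.zero⟩ ⟨A.add⟩,
      nsmul_zero := fun _ => rfl, nsmul_succ := fun _ _ => rfl }
  letI lo : LinearOrder A.M :=
    { le := fun a b => A.lt a b ∨ a = b
      lt := A.lt
      le_refl := fun a => Or.inr rfl
      le_trans := by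
        rintro a b c (h | h) (h' | h')
        · exact Or.inl (ltrans a b c h h')
        · exact Or.inl (h' ▸ h)
        · exact Or.inl (h ▸ h')
        · exact Or.inr (h.trans h')
      lt_iff_le_not_ge := by
        intro a b
        constructor
        · intro h
          refine ⟨Or.inl h, ?_⟩
          rintro (h' | h')
          · exact irrefl a (ltrans a b a h h')
          · rw [h'] at h; exact irrefl a h
        · rintro ⟨h | h, h'⟩
          · exact h
          · exact absurd (Or.inr h.symm) h'
      le_antisymm := by
        rintro a b (h | h) (h' | h')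
        · exact absurd (ltrans a b a h h') (irrefl a)
        · exact h'.symm
        · exact h
        · exact h
      le_total := by
        intro a b
        rcases tri a b with h | h | h
        · exact Or.inl (Or.inl h)
        · exact Or.inl (Or.inr h)
        · exact Or.inr (Or.inl h)
      toDecidableLE := Classical.decRel _ }
  have le_iff' : ∀ a b : A.M, a ≤ b ↔ ∃ c, b = a + c := leiff
  have lt_iff' : ∀ a b : A.M, a < b ↔ ∃ c, b = a + (c + 1) := ltiff
  have hlr : ∀ a b : A.M, a ≤ b → ∀ c, a + c ≤ b + c := by
    intro a b h c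
    obtain ⟨x, hx⟩ := (le_iff' a b).1 h
    exact (le_iff' _ _).2 ⟨x, by rw [hx]; ring⟩
  have hcancel : ∀ a b c : A.M, a + b ≤ a + c → b ≤ c := by
    intro a b c h
    obtain ⟨x, hx⟩ := (le_iff' _ _).1 h
    refine (le_iff' _ _).2 ⟨x, addcancel a c (b + x) ?_⟩
    change a + c = a + (b + x)
    rw [hx, add_assoc]
  have h01 : (0 : A.M) ≤ 1 := (le_iff' _ _).2 ⟨1, by rw [zero_add]⟩
  have hmul : ∀ a b c : A.M, 0 < a → b < c → a * b < a * c := by
    intro a b c ha hbc
    obtain ⟨x, hx⟩ := (lt_iff' _ _).1 ha
    obtain ⟨y, hy⟩ := (lt_iff' _ _).1 hbc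
    rw [zero_add] at hx
    refine (lt_iff' _ _).2 ⟨x * y + x + y, ?_⟩
    rw [hy, hx]; ring
  haveI : IsStrictOrderedRing A.M :=
    { add_le_add_left := hlr
      le_of_add_le_add_left := hcancel
      zero_le_one := h01
      exists_pair_ne := ⟨0, 1, onene⟩
      mul_lt_mul_of_pos_left := fun a ha b c hbc => hmul a b c ha hbc
      mul_lt_mul_of_pos_right := fun a ha b c hbc => by
        have := hmul a b c ha hbc
        rwa [mul_comm a b, mul_comm a c] at this }
  have hval : ∀ (t : Tm) (e : ℕ → A.M), t.val e = (tr t).val A e := by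
    intro t e
    induction t with
    | var i => rfl
    | zero => rfl
    | one => rfl
    | add s t ihs iht =>
      change s.val e + t.val e = A.add ((tr s).val A e) ((tr t).val A e)
      rw [← ihs, ← iht]; rfl
    | mul s t ihs iht =>
      change s.val e * t.val e = A.mul ((tr s).val A e) ((tr t).val A e)
      rw [← ihs, ← iht]; rfl
  have har : ∀ P : (ℕ → A.M) → Prop, Ar A.S P → Arith A P := by
    intro P hP
    induction hP with
    | eq s t =>
      simp only [hval]
      exact Arith.eq _ _
    | lt s t =>
      simp only [hval]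
      exact Arith.lt _ _
    | mem S hS t =>
      simp only [hval]
      exact Arith.mem S hS _
    | neg _ ih => exact Arith.neg ih
    | and _ _ ih1 ih2 => exact Arith.and ih1 ih2
    | ex i _ ih => exact Arith.ex i ih
  refine ⟨{ X := A.S
            zero_le' := fun a => (le_iff' _ _).2 ⟨a, (zero_add a).symm⟩
            exists_add := fun a b h => (le_iff' _ _).1 h
            lt_succ := fun a b => hA.lt_succ a b
            ind := hA.induction
            comp := fun P hP e i => hA.comprehension P (har P hP) e i }, ?_⟩
  rfl

end Pool.Agent.Helper43.CS
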